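import Pool.Agent.H28.LF.T3
import Pool.Agent.H67.AG.T1

/-!
Project LF, row D2: different sequences differ in a long window.
-/

set_option autoImplicit false

open MeasureTheory ProbabilityTheory Filter Topology Finset
open scoped Nat ENNReal

namespace Pool.Agent.H36.LF

open Pool.Agent.H67.AG (avgP ul Inv Rt Av SA kap JJ TT InvZ nxt triv tow XN PN TN XX PX TX prX Fac)
open Pool.Agent.H28.LF

theorem TT_iter {X : Type} [MeasurableSpace X] (T : X ≃ᵐ X) (n : ℕ) (p : X × X) :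
    (TT T)^[n] p = (T^[n] p.1, T^[n] p.2) := by
  induction n generalizing p with
  | zero => rfl
  | succ n ih =>
    rw [Function.iterate_succ_apply, ih, Function.iterate_succ_apply, Function.iterate_succ_apply]
    rfl

/-- the pairs which look equal in a window -/
def Bw (c : Ux) (l L : ℕ) : Set (c.X × c.X) :=
  {p | p ∉ c.Eqv ∧ ∀ i, l ≤ i → i < l + L → c.a (c.T^[i] p.1) = c.a (c.T^[i] p.2)}

theorem iter_meas {X : Type} [MeasurableSpace X] (T : X ≃ᵐ X) (n : ℕ) : Measurable (T^[n]) :=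
  T.measurable.iterate n

theorem meas_eqi (c : Ux) (i : ℕ) :
    MeasurableSet {p : c.X × c.X | c.a (c.T^[i] p.1) = c.a (c.T^[i] p.2)} :=
  measurableSet_eq_fun (c.am.comp ((iter_meas c.T i).comp measurable_fst))
    (c.am.comp ((iter_meas c.T i).comp measurable_snd))

theorem Bw_meas (c : Ux) (hm : MeasurableSet c.Eqv) (l L : ℕ) : MeasurableSet (Bw c l L) := by
  have e : Bw c l L = c.Eqvᶜ ∩ ⋂ i : ℕ, {p | l ≤ i → i < l + L →
      c.a (c.T^[i] p.1) = c.a (c.T^[i] p.2)} := by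
    ext p
    simp only [Bw, Set.mem_inter_iff, Set.mem_compl_iff, Set.mem_iInter]
    rfl
  rw [e]
  refine hm.compl.inter (MeasurableSet.iInter fun i => ?_)
  by_cases h : l ≤ i ∧ i < l + L
  · have e2 : {p : c.X × c.X | l ≤ i → i < l + L → c.a (c.T^[i] p.1) = c.a (c.T^[i] p.2)} =
        {p | c.a (c.T^[i] p.1) = c.a (c.T^[i] p.2)} := by
      ext p
      exact ⟨fun hp => hp h.1 h.2, fun hp _ _ => hp⟩
    rw [e2]
    exact meas_eqi c i
  · have e2 : {p : c.X × c.X | l ≤ i → i < l + L → c.a (c.T^[i] p.1) = c.a (c.T^[i] p.2)} =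
        Set.univ := by
      ext p
      exact ⟨fun _ => Set.mem_univ _, fun _ h1 h2 => (h ⟨h1, h2⟩).elim⟩
    rw [e2]
    exact MeasurableSet.univ

theorem pre_iter {X : Type} (f : X → X) (E : Set X) (h : f ⁻¹' E = E) (n : ℕ) :
    (f^[n]) ⁻¹' E = E := by
  induction n with
  | zero => rfl
  | succ n ih => rw [Function.iterate_succ, Set.preimage_comp, ih, h]

theorem Bw_shift (c : Ux) (hinv : (TT c.T) ⁻¹' c.Eqv = c.Eqv) (l L : ℕ) :
    ((TT c.T)^[l]) ⁻¹' (Bw c 0 L) = Bw c l L := by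
  have h1 := pre_iter (TT c.T) c.Eqv hinv l
  ext p
  have h2 : (TT c.T)^[l] p ∈ c.Eqv ↔ p ∈ c.Eqv := by
    conv_rhs => rw [← h1]
    rfl
  constructor
  · rintro ⟨ha, hb⟩
    refine ⟨fun hp => ha (h2.2 hp), fun i hi hi2 => ?_⟩
    have h3 := hb (i - l) (by omega) (by omega)
    rw [TT_iter] at h3
    dsimp only at h3
    rw [← Function.iterate_add_apply, ← Function.iterate_add_apply,
      show i - l + l = i by omega] at h3
    exact h3
  · rintro ⟨ha, hb⟩
    refine ⟨fun hp => ha (h2.1 hp), fun i _ hi2 => ?_⟩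
    have h3 := hb (i + l) (by omega) (by omega)
    rw [TT_iter]
    dsimp only
    rw [← Function.iterate_add_apply, ← Function.iterate_add_apply]
    exact h3

theorem pf_D2 (hE : T_EQB) (hJ : Pool.Agent.H67.AG.T_J3) : T_D2 := by
  intro c Z θ hZ hθ
  obtain ⟨hm, hinv, -, hQ⟩ := hE c
  have : IsProbabilityMeasure (JJ c.μ Z) := by
    unfold JJ
    infer_instance
  obtain ⟨hpr, -⟩ := hJ c.X c.μ c.T Z c.erg.toMeasurePreserving hZ
  obtain ⟨hae, -⟩ := hQ (JJ c.μ Z) hpr
  have hanti : Antitone fun L => Bw c 0 L := by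
    intro L L' hL p hp
    exact ⟨hp.1, fun i h1 h2 => hp.2 i h1 (by omega)⟩
  have hnull : (JJ c.μ Z) (⋂ L, Bw c 0 L) = 0 := by
    have h : ∀ᵐ p ∂(JJ c.μ Z), p ∉ ⋂ L, Bw c 0 L := by
      filter_upwards [hae] with p hp hmem
      rw [Set.mem_iInter] at hmem
      exact (hmem 0).1 (hp fun n => (hmem (n + 1)).2 n (Nat.zero_le _) (by omega))
    exact measure_eq_zero_iff_ae_notMem.2 h
  have htend := tendsto_measure_iInter_atTop (μ := JJ c.μ Z)
    (fun L => (Bw_meas c hm 0 L).nullMeasurableSet) hanti ⟨0, measure_ne_top _ _⟩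
  rw [hnull] at htend
  have htend2 : Tendsto (fun L => (JJ c.μ Z).real (Bw c 0 L)) atTop (𝓝 0) := by
    have h := (ENNReal.tendsto_toReal ENNReal.zero_ne_top).comp htend
    rw [ENNReal.toReal_zero] at h
    exact h
  obtain ⟨L₀, hL₀⟩ := eventually_atTop.1 (htend2.eventually (eventually_le_nhds hθ))
  refine ⟨L₀, fun L hL l => ?_⟩
  have hit := hpr.iterate l
  have e := hit.measure_preimage (Bw_meas c hm 0 L).nullMeasurableSet
  rw [Bw_shift c hinv] at e
  have e2 : (JJ c.μ Z).real (Bw c l L) = (JJ c.μ Z).real (Bw c 0 L) := by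
    unfold Measure.real
    rw [e]
  have h3 := hL₀ L hL
  rw [← e2] at h3
  exact h3

end Pool.Agent.H36.LF
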