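import Pool.Agent.H28.LF.T3
import Pool.Agent.H40.AG.TargetsE
import Pool.Agent.H67.AG.T1

/-!
Project LF, row DSC: the descent.
-/

set_option autoImplicit false

open MeasureTheory ProbabilityTheory Filter Topology Finset
open scoped Nat ENNReal

namespace Pool.Agent.H36.LF

open Pool.Agent.H67.AG (avgP ul Inv Rt Av SA kap JJ TT InvZ nxt triv tow XN PN TN XX PX TX prX Fac)
open Pool.Agent.H28.LF

theorem meas_sel {Ω X : Type} [MeasurableSpace Ω] [MeasurableSpace X] {n : ℕ}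
    {f : Ω → Fin n → X} {g : Ω → Fin n} (hf : ∀ b, Measurable fun ω => f ω b)
    (hg : Measurable g) : Measurable fun ω => f ω (g ω) := by
  intro B hB
  have e : (fun ω => f ω (g ω)) ⁻¹' B = ⋃ b, (g ⁻¹' {b} ∩ (fun ω => f ω b) ⁻¹' B) := by
    ext ω
    simp only [Set.mem_preimage, Set.mem_iUnion, Set.mem_inter_iff, Set.mem_singleton_iff]
    constructor
    · intro h
      exact ⟨g ω, rfl, h⟩
    · rintro ⟨b, hb, h⟩
      rw [hb]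
      exact h
  rw [e]
  exact MeasurableSet.iUnion fun b => (hg (measurableSet_singleton b)).inter (hf b hB)

/-- the numbers -/
theorem dsc_num {K γ m₀ δ La₁ La₂ pr : ℝ} (hK : 0 < K) (hγ : 0 < γ) (hm : 0 < m₀)
    (h1 : δ ≤ (γ * m₀) ^ 2 / (3968 * K)) (h2 : La₁ ≤ La₂ + 31 * K * pr) (h3 : pr ≤ δ)
    (h4 : La₂ ≤ (γ * m₀) ^ 2 / 1024) :
    32 / (γ * m₀) ^ 2 * La₁ + 1 / 8 ≤ 1 / 2 := by
  have h0 : 0 < (γ * m₀) ^ 2 := by positivity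
  have h5 : 31 * K * pr ≤ 31 * K * ((γ * m₀) ^ 2 / (3968 * K)) :=
    mul_le_mul_of_nonneg_left (h3.trans h1) (by positivity)
  have h6 : 31 * K * ((γ * m₀) ^ 2 / (3968 * K)) = (γ * m₀) ^ 2 / 128 := by
    field_simp
    ring
  have h7 : La₁ ≤ (γ * m₀) ^ 2 / 1024 + (γ * m₀) ^ 2 / 128 := by linarith
  have h8 : 32 / (γ * m₀) ^ 2 * La₁ ≤
      32 / (γ * m₀) ^ 2 * ((γ * m₀) ^ 2 / 1024 + (γ * m₀) ^ 2 / 128) :=
    mul_le_mul_of_nonneg_left h7 (by positivity)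
  have h9 : 32 / (γ * m₀) ^ 2 * ((γ * m₀) ^ 2 / 1024 + (γ * m₀) ^ 2 / 128) = 9 / 32 := by
    field_simp
    norm_num
  linarith

theorem pf_DSC (hLAB : T_LAB) (hLAF : T_LAF) (hND : T_ND) (hD1 : T_D1) (hD2 : T_D2)
    (hD3 : T_D3) (hD4 : T_D4) (hD5 : T_D5) (hD6 : T_D6) (hD8 : T_D8) (hD9 : T_D9)
    (hNXI : Pool.Agent.H67.AG.T_NXI) (hPXL : Pool.Agent.H40.AG.T_PXL)
    (hPXT : Pool.Agent.H40.AG.T_PXT) (hPXF : Pool.Agent.H40.AG.T_PXF) : T_DSC := by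
  intro c Z hZ hCP
  obtain ⟨hZ', -, -⟩ := hNXI c.X c.μ c.T Z c.erg hZ
  have hmp : MeasurePreserving c.T c.μ c.μ := c.erg.toMeasurePreserving
  have hγ := c.γ0
  have huniv : MeasurableSet[Inv c.T 1] (Set.univ : Set c.X) := MeasurableSet.univ
  have hγ1 : c.γ ≤ 1 := by
    have h := hLAB c.X c.μ c.T c.U c.s c.q (1 + 1) (c.Bad 1 1) c.a c.a Set.univ hmp c.hU c.sv
      c.am c.am huniv
    exact c.hγ.trans h.2.2.1
  have hκ : 0 < c.κ := by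
    unfold Ux.κ
    positivity
  have hκ1 : c.κ ≤ 1 := by
    unfold Ux.κ
    have : c.γ ^ 2 ≤ 1 := pow_le_one₀ hγ.le hγ1
    linarith
  obtain ⟨K₀, hK₀, hrel₀⟩ := c.rel (c.γ * c.κ / 16) (by positivity)
  have hK₀' : (1 : ℝ) ≤ (K₀ : ℝ) := by exact_mod_cast hK₀
  set m₀ : ℝ := c.κ / (10 * K₀) with hm₀def
  have hm₀ : 0 < m₀ := by positivity
  have hm₁ : m₀ ≤ 1 := by
    rw [hm₀def, div_le_one (by positivity)]
    linarith
  have hSep : c.Sep m₀ := hND c K₀ hK₀ hrel₀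
  obtain ⟨K, hK, hrel⟩ := c.rel ((c.γ * m₀) ^ 2 / 1024) (by positivity)
  have hK' : (1 : ℝ) ≤ (K : ℝ) := by exact_mod_cast hK
  obtain ⟨η, hη, h8⟩ := hD8 c K m₀ (1 / 8) hK hm₀ hm₁ hSep (by norm_num)
  obtain ⟨c₀, hc₀, hc₁, hcl⟩ := hD1 c (nxt c.μ c.T Z) hZ' hCP
  obtain ⟨δ, hδ, hδ1, hδ2, hδ3⟩ : ∃ δ : ℝ, 0 < δ ∧ δ ≤ η / 3 ∧ δ ≤ m₀ / 8 ∧
      δ ≤ (c.γ * m₀) ^ 2 / (3968 * K) := by
    refine ⟨min (η / 3) (min (m₀ / 8) ((c.γ * m₀) ^ 2 / (3968 * K))), ?_, min_le_left _ _,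
      (min_le_right _ _).trans (min_le_left _ _), (min_le_right _ _).trans (min_le_right _ _)⟩
    refine lt_min (by positivity) (lt_min (by positivity) (by positivity))
  obtain ⟨n, hn⟩ : ∃ n : ℕ, (1 - c₀) ^ (n + 1) ≤ δ / 2 := by
    obtain ⟨n, hn⟩ := exists_pow_lt_of_lt_one (show 0 < δ / 2 by positivity)
      (show 1 - c₀ < 1 by linarith)
    refine ⟨n, le_trans ?_ hn.le⟩
    exact pow_le_pow_of_le_one (by linarith) (by linarith) (Nat.le_succ n)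
  obtain ⟨L₁, hL₁⟩ := h8 (nxt c.μ c.T Z) n hZ'
  have hn1 : (0 : ℝ) < (n : ℝ) + 1 := by positivity
  obtain ⟨Λ₀, hΛ₀⟩ := hD2 c (nxt c.μ c.T Z) (δ / ((n : ℝ) + 1) ^ 2) hZ' (by positivity)
  have hwin := hΛ₀ (Λ₀ + 1) (Nat.le_succ _) L₁
  set Λ : ℕ := L₁ + (Λ₀ + 1) with hΛ
  obtain ⟨R, hR, hRT, hRJ, hR1, hR2, hRL⟩ := hD3 c Z Λ (δ / 2) hZ (by positivity)
  obtain ⟨hP, -, -, -, -, -⟩ := hPXL c.X c.μ (nxt c.μ c.T Z) (n + 1) R hR1 hR2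
  have hPT := hPXT c.X c.μ c.T (nxt c.μ c.T Z) (n + 1) R hmp hZ' hR1 hR2 hRT
  obtain ⟨-, -, -, hFl, -⟩ := hPXF c.X c.μ c.T (nxt c.μ c.T Z) (n + 1) R hmp hZ' hR1 hR2 hRT
  have h4 := hD4 c (nxt c.μ c.T Z) c₀ Λ n R (δ / 2) hZ' hc₀ hc₁ hcl hR1 hR2 hRL
  have hNF : (PX c.μ (nxt c.μ c.T Z) (n + 1) R).real (c.NF Λ n) ≤ δ := by linarith
  have h5 := hD5 c (nxt c.μ c.T Z) Λ L₁ n R (δ / ((n : ℝ) + 1) ^ 2) hZ' hR1 hR2 hwin
  have hFE : (PX c.μ (nxt c.μ c.T Z) (n + 1) R).real (c.FE Λ L₁ n) ≤ δ := by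
    refine h5.trans (le_of_eq ?_)
    field_simp
  have h6 := fun l (hl : l ≤ L₁) =>
    hD6 c Λ l L₁ n (PX c.μ (nxt c.μ c.T Z) (n + 1) R) hPT (by omega) hl
  obtain ⟨hsm, -, hmis⟩ := h6 0 (Nat.zero_le _)
  have hslow : ∀ l ≤ L₁, (PX c.μ (nxt c.μ c.T Z) (n + 1) R).real
      {p | c.sel Λ n ((TX c.T (n + 1))^[l] p) ≠ c.sel Λ n p} ≤ η := by
    intro l hl
    have h := (h6 l hl).2.1
    linarith
  have hmis' : (PX c.μ (nxt c.μ c.T Z) (n + 1) R).real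
      {p | c.a (p.2.1 (c.sel Λ n p)) ≠ c.a p.2.2} ≤ δ := hmis.trans hNF
  have h88 := hL₁ Λ R hR1 hR2 hRT hslow
  -- the frequency of the bad words
  have hams : Measurable fun p : XX c.X (n + 1) => c.a (p.2.1 (c.sel Λ n p)) := by
    refine c.am.comp ?_
    exact meas_sel (f := fun p : XX c.X (n + 1) => p.2.1)
      (fun b => (measurable_pi_apply b).comp (measurable_fst.comp measurable_snd)) hsm
  have haml : Measurable fun p : XX c.X (n + 1) => c.a p.2.2 :=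
    c.am.comp (measurable_snd.comp measurable_snd)
  have hu2 : MeasurableSet[Inv (TX c.T (n + 1)) 1] (Set.univ : Set (XX c.X (n + 1))) :=
    MeasurableSet.univ
  have hlab := (hLAB (XX c.X (n + 1)) (PX c.μ (nxt c.μ c.T Z) (n + 1) R) (TX c.T (n + 1)) c.U c.s
    c.q (30 * K + K) (c.Bad K (30 * K)) (fun p => c.a (p.2.1 (c.sel Λ n p)))
    (fun p => c.a p.2.2) Set.univ hPT c.hU c.sv hams haml hu2).2.2.2.2
  have hlaf := hLAF (XX c.X (n + 1)) c.X (PX c.μ (nxt c.μ c.T Z) (n + 1) R) c.μ (TX c.T (n + 1))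
    c.T (fun q => q.2.2) c.U c.s c.q (30 * K + K) (c.Bad K (30 * K)) c.a hFl c.am
  rw [Set.univ_inter, hlaf] at hlab
  have hcast : ((30 * K + K : ℕ) : ℝ) = 31 * (K : ℝ) := by
    push_cast
    ring
  rw [hcast] at hlab
  have hla := hrel (30 * K) (by omega)
  have hnum := dsc_num (by positivity) hγ hm₀ hδ3 hlab hmis' hla
  refine hD9 c Z n Λ R m₀ (c.γ * m₀ / (240 * K)) hZ hZ' hm₀ hm₁ hSep (by omega) hRT hRJ hR1 hR2
    (by positivity) ?_ (hmis'.trans hδ2) (h88.trans hnum)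
  rw [div_le_div_iff₀ (by positivity) (by norm_num)]
  have h1 : c.γ * m₀ ≤ m₀ := by nlinarith
  nlinarith

end Pool.Agent.H36.LF
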